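import Pool.Agent.Helper1_NP9.Stmts

/-!
Module SEB: the expansion of `Y v m` in powers of `2 v`.
-/

set_option autoImplicit false

namespace Pool.Agent.NP9.H76

open Finset Pool.Agent.NP9

theorem term_rec (V : ℤ) (m j : ℕ) (hj : j < m) :
    (-1 : ℤ) ^ (j + 1) * (((m + 2 - 1 - (j + 1)).choose (j + 1) : ℕ) : ℤ) *
      V ^ (m + 2 - 1 - 2 * (j + 1)) =
    V * ((-1 : ℤ) ^ (j + 1) * (((m + 1 - 1 - (j + 1)).choose (j + 1) : ℕ) : ℤ) *
      V ^ (m + 1 - 1 - 2 * (j + 1))) -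
    (-1 : ℤ) ^ j * (((m - 1 - j).choose j : ℕ) : ℤ) * V ^ (m - 1 - 2 * j) := by
  obtain ⟨d, rfl⟩ : ∃ d, m = j + 1 + d := ⟨m - (j + 1), by omega⟩
  have e1 : j + 1 + d + 2 - 1 - (j + 1) = d + 1 := by omega
  have e2 : j + 1 + d + 1 - 1 - (j + 1) = d := by omega
  have e3 : j + 1 + d - 1 - j = d := by omega
  have e4 : j + 1 + d + 2 - 1 - 2 * (j + 1) = d - j := by omega
  have e5 : j + 1 + d - 1 - 2 * j = d - j := by omega
  have e6 : j + 1 + d + 1 - 1 - 2 * (j + 1) = d - j - 1 := by omega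
  rw [e1, e2, e3, e4, e5, e6, Nat.choose_succ_succ]
  push_cast
  by_cases h : j + 1 ≤ d
  · have h1 : V * V ^ (d - j - 1) = V ^ (d - j) := by
      rw [← pow_succ']
      congr 1
      omega
    rw [← h1, pow_succ]
    ring
  · have h1 : d.choose (j + 1) = 0 := Nat.choose_eq_zero_of_lt (by omega)
    rw [h1, pow_succ]
    push_cast
    ring

theorem expand (v : ℤ) : ∀ m : ℕ,
    Y v m = ∑ j ∈ range m,
      (-1) ^ j * (((m - 1 - j).choose j : ℕ) : ℤ) * (2 * v) ^ (m - 1 - 2 * j)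
  | 0 => by simp [Y]
  | 1 => by simp [Y]
  | (m + 2) => by
    have h1 : Y v (m + 2) = 2 * v * Y v (m + 1) - Y v m := rfl
    rw [h1, expand v (m + 1), expand v m, Finset.mul_sum]
    rw [Finset.sum_range_succ' (fun j => (-1 : ℤ) ^ j * (((m + 2 - 1 - j).choose j : ℕ) : ℤ) *
      (2 * v) ^ (m + 2 - 1 - 2 * j)) (m + 1)]
    rw [Finset.sum_range_succ (fun j => (-1 : ℤ) ^ (j + 1) *
      (((m + 2 - 1 - (j + 1)).choose (j + 1) : ℕ) : ℤ) * (2 * v) ^ (m + 2 - 1 - 2 * (j + 1))) m]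
    rw [Finset.sum_range_succ' (fun j => 2 * v * ((-1 : ℤ) ^ j *
      (((m + 1 - 1 - j).choose j : ℕ) : ℤ) * (2 * v) ^ (m + 1 - 1 - 2 * j))) m]
    rw [Finset.sum_congr rfl (fun j hj => term_rec (2 * v) m j (Finset.mem_range.1 hj)),
      Finset.sum_sub_distrib]
    have e1 : (m + 2 - 1 - (m + 1)).choose (m + 1) = 0 := Nat.choose_eq_zero_of_lt (by omega)
    have e2 : m + 2 - 1 - 2 * 0 = m + 1 := by omega
    have e3 : m + 1 - 1 - 2 * 0 = m := by omega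
    rw [e1, e2, e3, pow_succ]
    simp only [Nat.choose_zero_right]
    push_cast
    ring

theorem seb : SebStmt := fun m v _ => expand v m

end Pool.Agent.NP9.H76
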